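import Pool.Agent.helper37.NG.Spec

/-!
# LC3 (project NG)
-/

set_option autoImplicit false

namespace Pool.Agent.helper37.NG

open Finset Pool.Agent.NK Pool.Agent.helper37.NF

theorem LC3_mono {x y : ℝ} (hx : 0 ≤ x) (hxy : x ≤ y) : sig x ≤ sig y := by
  have hy : 0 ≤ y := hx.trans hxy
  unfold sig
  rw [div_le_div_iff₀ (by positivity) (by positivity)]
  have h1 : (3 * x + 1) * (2 * y + 1) ≤ (3 * y + 1) * (2 * x + 1) := by nlinarith
  have h2 : (3 * x + 2) * (2 * y + 2) ≤ (3 * y + 2) * (2 * x + 2) := by nlinarith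
  have h3 := mul_le_mul h1 h2 (by positivity) (by positivity)
  nlinarith

theorem LC3_step (h : RE3_stmt) {i j : ℕ} (hij : i ≤ j) :
    c3 (i + 1) * c3 j ≤ c3 i * c3 (j + 1) := by
  have h1 := h i
  have h2 := h j
  have h3 : sig (i : ℝ) ≤ sig (j : ℝ) := LC3_mono (Nat.cast_nonneg i) (by exact_mod_cast hij)
  have h4 : ((c3 (i + 1) * c3 j : ℕ) : ℝ) ≤ ((c3 i * c3 (j + 1) : ℕ) : ℝ) := by
    push_cast
    rw [h1, h2]
    have h5 : (0 : ℝ) ≤ (c3 i : ℝ) * (c3 j : ℝ) := by positivity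
    nlinarith [mul_le_mul_of_nonneg_right h3 h5]
  exact_mod_cast h4

theorem LC3_ind (h : RE3_stmt) (i : ℕ) (hi : 2 ≤ i) :
    ∀ j, i ≤ j → c3 i * c3 j ≤ 15 * c3 (i + j - 2) := by
  induction i, hi using Nat.le_induction with
  | base =>
    intro j hj
    have h1 : 2 + j - 2 = j := by omega
    rw [h1]
    have h2 : c3 2 = 15 := by decide
    rw [h2]
  | succ i hi ih =>
    intro j hj
    have h1 := LC3_step h (i := i) (j := j) (by omega)
    have h2 := ih (j + 1) (by omega)
    have h3 : i + (j + 1) - 2 = i + 1 + j - 2 := by omega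
    rw [h3] at h2
    exact h1.trans h2

theorem LC3 (h : RE3_stmt) : LC3_stmt := by
  intro i j hi hj
  rcases le_total i j with hij | hij
  · exact LC3_ind h i hi j hij
  · have h1 := LC3_ind h j hj i hij
    rw [mul_comm, add_comm i j]
    exact h1

end Pool.Agent.helper37.NG
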